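import Pool.Agent.Lib.BNR.Seq
import Pool.Agent.Lib.P187w.Norm
import Pool.Agent.Lib.P187w.Asm

/-!
# The coefficients of the members of the family

The coefficients of `GG l a η` are `(1 - l ^ 2) η c_n`, where `c_n` satisfies a two-term recursion,
so the majorant is an explicit power series.
-/

set_option autoImplicit false

open Complex Metric Set Filter Topology
open Pool.Agent.P187f6b Pool.Agent.P187s Pool.Agent.P187w

namespace Pool.Agent.BFIN

/-- The numbers `c_0 = a`, `c_1 = a ^ 2 (1 - l η) - 1`,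
`c_(n + 2) = a (1 - l η) c_(n + 1) + l η c_n`. -/
noncomputable def cf (l a : ℝ) (η : ℂ) : ℕ → ℂ
  | 0 => a
  | 1 => a ^ 2 * (1 - l * η) - 1
  | n + 2 => a * (1 - l * η) * cf l a η (n + 1) + l * η * cf l a η n

lemma cf_eq_el (l a : ℝ) (η : ℂ) (n : ℕ) : cf l a η n = BNR.el a (-((l : ℂ) * η)) n := by
  induction n using Nat.twoStepInduction with
  | zero => rw [cf, BNR.el]
  | one => rw [cf, BNR.el]; ring
  | more n ih1 ih2 => rw [cf, BNR.el, ih1, ih2]; ring

lemma cf_one (l : ℝ) (η : ℂ) (n : ℕ) : cf l 1 η n = (-((l : ℂ) * η)) ^ n := by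
  induction n using Nat.twoStepInduction with
  | zero => rw [cf]; simp
  | one => rw [cf]; push_cast; ring
  | more n ih1 ih2 => rw [cf, ih1, ih2]; push_cast; ring

/-- The majorant of a member of the family as an explicit power series. -/
theorem maj_series {l a : ℝ} (h0 : 0 < l) (h1 : l < 1) (ha0 : 0 ≤ a) (ha1 : a ≤ 1) {η : ℂ}
    (hη : ‖η‖ = 1) {r : ℝ} (hr0 : 0 ≤ r) (hr1 : r < 1) :
    maj l (GG l a η) r = l + (1 - l ^ 2) * ∑' n : ℕ, ‖cf l a η n‖ * r ^ (n + 1) := by
  have hs : ∀ b : ℝ, ∑' n : ℕ, ‖cf l b η n‖ * r ^ (n + 1) =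
      r * ∑' n : ℕ, ‖cf l b η n‖ * r ^ n := by
    intro b
    rw [← tsum_mul_left]
    refine tsum_congr (fun n => ?_)
    rw [pow_succ]; ring
  have hx : ‖-((l : ℂ) * η)‖ = l := by
    rw [norm_neg, norm_mul, hη, mul_one, Complex.norm_real, Real.norm_eq_abs, abs_of_pos h0]
  rcases ha1.lt_or_eq with ha | ha
  · rw [maj_GG h0 h1 ha0 ha hη Sc_one hr0 hr1, hs a]
    congr 2
    unfold Ph
    congr 1
    have e1 : nr (LN (-((l : ℂ) * η)) (gk a (kh 1 (fun _ => 1)))) r =
        nr (LN (-((l : ℂ) * η)) (gk a (fun _ => 1))) r := by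
      unfold nr
      refine tsum_congr (fun n => ?_)
      rw [tc_congr (LN_diff (by rw [hx]; exact h1) (gk_Sc ha0 ha1 Sc_one)) (fun z hz => ?_)]
      unfold LN gk
      rw [kh_one Sc_one hz]
    rw [e1]
    unfold nr
    refine tsum_congr (fun n => ?_)
    rw [BNR.tc_el (by rw [hx]; exact h1) ha0 ha1, cf_eq_el]
  · subst ha
    have hm := AsmAux.maj_GG_one h0 h1 hη hr0 hr1
    rw [show ((1 : ℝ)) = (1 : ℝ) from rfl] at hm
    rw [hs 1]
    have e2 : ∀ n, ‖cf l 1 η n‖ * r ^ n = (l * r) ^ n := by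
      intro n
      rw [cf_one, norm_pow, hx, mul_pow]
    simp_rw [e2]
    rw [tsum_geometric_of_lt_one (by positivity) (by nlinarith)]
    rw [hm]; ring

end Pool.Agent.BFIN
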