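import Pool.Agent.Lib.BFIN.Gen
import Pool.Agent.Lib.BFD.Slice18

/-!
# The far zone on `(0, 377 / 1024]`
-/

set_option autoImplicit false

open Pool.Agent.P187w Pool.Agent.BMM

namespace Pool.Agent.BFIN

theorem far_all : ∀ l : ℝ, 0 < l → l ≤ 377 / 1024 → FAR l (RR l) (s1f l) (40 / 1024) :=
  of_slices (Q := fun l R s => FAR l R s (40 / 1024))
    (fun _ h1 h2 => BFD.FAR_0 (by rw [zero_div]; exact h1.le) h2)
    (fun _ h1 h2 => BFD.FAR_1 h1.le h2)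
    (fun _ h1 h2 => BFD.FAR_2 h1.le h2)
    (fun _ h1 h2 => BFD.FAR_3 h1.le h2)
    (fun _ h1 h2 => BFD.FAR_4 h1.le h2)
    (fun _ h1 h2 => BFD.FAR_5 h1.le h2)
    (fun _ h1 h2 => BFD.FAR_6 h1.le h2)
    (fun _ h1 h2 => BFD.FAR_7 h1.le h2)
    (fun _ h1 h2 => BFD.FAR_8 h1.le h2)
    (fun _ h1 h2 => BFD.FAR_9 h1.le h2)
    (fun _ h1 h2 => BFD.FAR_10 h1.le h2)
    (fun _ h1 h2 => BFD.FAR_11 h1.le h2)
    (fun _ h1 h2 => BFD.FAR_12 h1.le h2)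
    (fun _ h1 h2 => BFD.FAR_13 h1.le h2)
    (fun _ h1 h2 => BFD.FAR_14 h1.le h2)
    (fun _ h1 h2 => BFD.FAR_15 h1.le h2)
    (fun _ h1 h2 => BFD.FAR_16 h1.le h2)
    (fun _ h1 h2 => BFD.FAR_17 h1.le h2)

end Pool.Agent.BFIN
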