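import Pool.Agent.Lib.BMM.Fin
import Pool.Agent.Lib.P187w.EEz

/-!
# Assembly of the whole range (PROJECT BOHR)

`s1f` is the step function of the radii of the near zone, `40 / 1024` the width of the zone
`a` near one. `of_slices` puts a statement on `(0, 377 / 1024]` together from the slices.
-/

set_option autoImplicit false

open Pool.Agent.P187f6b Pool.Agent.P187s Pool.Agent.P187w Pool.Agent.BMM

namespace Pool.Agent.BFIN

/-- the width of the near zone -/
noncomputable def s1f (l : ℝ) : ℝ :=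
  if l ≤ 51 / 1024 then 25 / 1024 else
  if l ≤ 128 / 1024 then 30 / 1024 else
  if l ≤ 205 / 1024 then 40 / 1024 else
  if l ≤ 256 / 1024 then 45 / 1024 else
  if l ≤ 307 / 1024 then 55 / 1024 else 58 / 1024

theorem s1f_0 {l : ℝ} (h2 : l ≤ 51 / 1024) : s1f l = 25 / 1024 := by
  rw [s1f, if_pos h2]

theorem s1f_1 {l : ℝ} (h1 : 51 / 1024 < l) (h2 : l ≤ 128 / 1024) : s1f l = 30 / 1024 := by
  rw [s1f, if_neg (by linarith), if_pos h2]

theorem s1f_2 {l : ℝ} (h1 : 128 / 1024 < l) (h2 : l ≤ 205 / 1024) : s1f l = 40 / 1024 := by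
  rw [s1f, if_neg (by linarith), if_neg (by linarith), if_pos h2]

theorem s1f_3 {l : ℝ} (h1 : 205 / 1024 < l) (h2 : l ≤ 256 / 1024) : s1f l = 45 / 1024 := by
  rw [s1f, if_neg (by linarith), if_neg (by linarith), if_neg (by linarith), if_pos h2]

theorem s1f_4 {l : ℝ} (h1 : 256 / 1024 < l) (h2 : l ≤ 307 / 1024) : s1f l = 55 / 1024 := by
  rw [s1f, if_neg (by linarith), if_neg (by linarith), if_neg (by linarith),
    if_neg (by linarith), if_pos h2]

theorem s1f_5 {l : ℝ} (h1 : 307 / 1024 < l) : s1f l = 58 / 1024 := by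
  rw [s1f, if_neg (by linarith), if_neg (by linarith), if_neg (by linarith),
    if_neg (by linarith), if_neg (by linarith)]

/-- The far zone with a larger `s2`. -/
theorem FAR_mono {l R s1 s2 s2' : ℝ} (h : FAR l R s1 s2) (hs : s2 ≤ s2') : FAR l R s1 s2' :=
  fun f hf α h0 h1 => h f hf α h0 (by linarith)

/-- Assembly of a statement on `(0, 377 / 1024]` from the eighteen slices. -/
theorem of_slices {Q : ℝ → ℝ → ℝ → Prop}
    (h0 : ∀ l : ℝ, 0 < l → l ≤ 26 / 1024 → Q l (chord 0 26 11863619 11713037 l) (25 / 1024))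
    (h1 : ∀ l : ℝ, 26 / 1024 < l → l ≤ 51 / 1024 →
      Q l (chord 26 51 11713037 11568397 l) (25 / 1024))
    (h2 : ∀ l : ℝ, 51 / 1024 < l → l ≤ 77 / 1024 →
      Q l (chord 51 77 11568397 11418297 l) (30 / 1024))
    (h3 : ∀ l : ℝ, 77 / 1024 < l → l ≤ 102 / 1024 →
      Q l (chord 77 102 11418297 11274427 l) (30 / 1024))
    (h4 : ∀ l : ℝ, 102 / 1024 < l → l ≤ 128 / 1024 →
      Q l (chord 102 128 11274427 11125386 l) (30 / 1024))
    (h5 : ∀ l : ℝ, 128 / 1024 < l → l ≤ 154 / 1024 →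
      Q l (chord 128 154 11125386 10976978 l) (40 / 1024))
    (h6 : ∀ l : ℝ, 154 / 1024 < l → l ≤ 179 / 1024 →
      Q l (chord 154 179 10976978 10834818 l) (40 / 1024))
    (h7 : ∀ l : ℝ, 179 / 1024 < l → l ≤ 205 / 1024 →
      Q l (chord 179 205 10834818 10687355 l) (40 / 1024))
    (h8 : ∀ l : ℝ, 205 / 1024 < l → l ≤ 230 / 1024 →
      Q l (chord 205 230 10687355 10545629 l) (45 / 1024))
    (h9 : ∀ l : ℝ, 230 / 1024 < l → l ≤ 256 / 1024 →
      Q l (chord 230 256 10545629 10397833 l) (45 / 1024))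
    (h10 : ∀ l : ℝ, 256 / 1024 < l → l ≤ 282 / 1024 →
      Q l (chord 256 282 10397833 10249024 l) (55 / 1024))
    (h11 : ∀ l : ℝ, 282 / 1024 < l → l ≤ 307 / 1024 →
      Q l (chord 282 307 10249024 10103747 l) (55 / 1024))
    (h12 : ∀ l : ℝ, 307 / 1024 < l → l ≤ 323 / 1024 →
      Q l (chord 307 323 10103747 10009022 l) (58 / 1024))
    (h13 : ∀ l : ℝ, 323 / 1024 < l → l ≤ 338 / 1024 →
      Q l (chord 323 338 10009022 9918717 l) (58 / 1024))
    (h14 : ∀ l : ℝ, 338 / 1024 < l → l ≤ 353 / 1024 →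
      Q l (chord 338 353 9918717 9826159 l) (58 / 1024))
    (h15 : ∀ l : ℝ, 353 / 1024 < l → l ≤ 369 / 1024 →
      Q l (chord 353 369 9826159 9721984 l) (58 / 1024))
    (h16 : ∀ l : ℝ, 369 / 1024 < l → l ≤ 376 / 1024 →
      Q l (chord 369 376 9721984 9673686 l) (58 / 1024))
    (h17 : ∀ l : ℝ, 376 / 1024 < l → l ≤ 377 / 1024 →
      Q l (chord 376 377 9673686 9662805 l) (58 / 1024)) :
    ∀ l : ℝ, 0 < l → l ≤ 377 / 1024 → Q l (RR l) (s1f l) := by
  intro l hpos hend
  rcases le_or_gt l (26 / 1024) with h | g0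
  · rw [RR_0 (by linarith) h, s1f_0 (by linarith)]; exact h0 l hpos h
  rcases le_or_gt l (51 / 1024) with h | g1
  · rw [RR_1 g0 h, s1f_0 (by linarith)]; exact h1 l g0 h
  rcases le_or_gt l (77 / 1024) with h | g2
  · rw [RR_2 g1 h, s1f_1 (by linarith) (by linarith)]; exact h2 l g1 h
  rcases le_or_gt l (102 / 1024) with h | g3
  · rw [RR_3 g2 h, s1f_1 (by linarith) (by linarith)]; exact h3 l g2 h
  rcases le_or_gt l (128 / 1024) with h | g4
  · rw [RR_4 g3 h, s1f_1 (by linarith) (by linarith)]; exact h4 l g3 h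
  rcases le_or_gt l (154 / 1024) with h | g5
  · rw [RR_5 g4 h, s1f_2 (by linarith) (by linarith)]; exact h5 l g4 h
  rcases le_or_gt l (179 / 1024) with h | g6
  · rw [RR_6 g5 h, s1f_2 (by linarith) (by linarith)]; exact h6 l g5 h
  rcases le_or_gt l (205 / 1024) with h | g7
  · rw [RR_7 g6 h, s1f_2 (by linarith) (by linarith)]; exact h7 l g6 h
  rcases le_or_gt l (230 / 1024) with h | g8
  · rw [RR_8 g7 h, s1f_3 (by linarith) (by linarith)]; exact h8 l g7 h
  rcases le_or_gt l (256 / 1024) with h | g9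
  · rw [RR_9 g8 h, s1f_3 (by linarith) (by linarith)]; exact h9 l g8 h
  rcases le_or_gt l (282 / 1024) with h | g10
  · rw [RR_10 g9 h, s1f_4 (by linarith) (by linarith)]; exact h10 l g9 h
  rcases le_or_gt l (307 / 1024) with h | g11
  · rw [RR_11 g10 h, s1f_4 (by linarith) (by linarith)]; exact h11 l g10 h
  rcases le_or_gt l (323 / 1024) with h | g12
  · rw [RR_12 g11 h, s1f_5 (by linarith)]; exact h12 l g11 h
  rcases le_or_gt l (338 / 1024) with h | g13
  · rw [RR_13 g12 h, s1f_5 (by linarith)]; exact h13 l g12 h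
  rcases le_or_gt l (353 / 1024) with h | g14
  · rw [RR_14 g13 h, s1f_5 (by linarith)]; exact h14 l g13 h
  rcases le_or_gt l (369 / 1024) with h | g15
  · rw [RR_15 g14 h, s1f_5 (by linarith)]; exact h15 l g14 h
  rcases le_or_gt l (376 / 1024) with h | g16
  · rw [RR_16 g15 h, s1f_5 (by linarith)]; exact h16 l g15 h
  rw [RR_17 g16 hend, s1f_5 (by linarith)]
  exact h17 l g16 hend

end Pool.Agent.BFIN
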