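import Pool.Agent.Lib.BFIN.Gen
import Pool.Agent.Lib.BND.N

/-!
# The near zone on `(0, 377 / 1024]`
-/

set_option autoImplicit false

open Pool.Agent.P187w Pool.Agent.BMM

namespace Pool.Agent.BFIN

theorem near_all : ∀ l : ℝ, 0 < l → l ≤ 377 / 1024 → NEAR l (RR l) (s1f l) (40 / 1024) :=
  of_slices (Q := fun l R s => NEAR l R s (40 / 1024))
    BND.near0
    BND.near1
    BND.near2
    BND.near3
    BND.near4
    BND.near5
    BND.near6
    BND.near7
    BND.near8
    BND.near9
    BND.near10
    BND.near11
    BND.near12
    BND.near13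
    BND.near14
    BND.near15
    BND.near16
    BND.near17

end Pool.Agent.BFIN
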