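import Pool.Agent.Lib.BFIN.FarAll
import Pool.Agent.Lib.BFIN.NearAll
import Pool.Agent.Lib.BL0.Main
import Pool.Agent.Lib.BCF.Fam

/-!
# The hypotheses of the final statement (PROJECT BOHR)

The six facts which the final statement `P187w.full_range` needs: the upper bound `BMM.RR` of the
best constant, the far zone, the near zone, the zone of `a` near one, the family check at
`3672 / 10000`, and the value of the upper bound there.
-/

set_option autoImplicit false

open Pool.Agent.P187f6b Pool.Agent.P187s Pool.Agent.P187w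

namespace Pool.Agent.BFIN

/-- the inner radius of the near zone -/
noncomputable abbrev s1 : ℝ → ℝ := s1f

/-- the width of the zone of `a` near one -/
noncomputable def s2 (_ : ℝ) : ℝ := 40 / 1024

theorem hB : ∀ l : ℝ, 0 < l → l ≤ 3672 / 10000 → BB l ≤ BMM.RR l :=
  fun _ h0 h1 => BMM.BB_le_RR h0 (h1.trans (by norm_num))

theorem hfar : ∀ l : ℝ, 0 < l → l ≤ 3672 / 10000 → FAR l (BMM.RR l) (s1 l) (s2 l) :=
  fun l h0 h1 => far_all l h0 (h1.trans (by norm_num))

theorem hnear : ∀ l : ℝ, 0 < l → l ≤ 3672 / 10000 → NEAR l (BMM.RR l) (s1 l) (s2 l) :=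
  fun l h0 h1 => near_all l h0 (h1.trans (by norm_num))

theorem hlev : ∀ l : ℝ, 0 < l → l ≤ 3672 / 10000 → LEV0 l (BMM.RR l) (s2 l) :=
  fun _ h0 h1 => BL0.lev0_all h0 h1

theorem hfam : ∀ a : ℝ, 0 ≤ a → a ≤ 1 - s2 (3672 / 10000) → ∀ η : ℂ, ‖η‖ = 1 →
    maj (3672 / 10000) (GG (3672 / 10000) a η) (1 / (1 + 2 * (3672 / 10000))) ≤ 1 :=
  fun a h0 h1 η hη => BCF.hfam a h0 h1 η hη

theorem hR : 1 / (1 + 2 * (3672 / 10000)) ≤ BMM.RR (3672 / 10000) := BMM.RR_end

end Pool.Agent.BFIN
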